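import Pool.Agent.H83.UE.Targets3

/-!
# MP_75a732_an (board udb_modules), TAM: currents of generic algebraic sets are tame
-/

set_option autoImplicit false

open Polynomial MeasureTheory Filter Topology Set
open scoped OnePoint ComplexConjugate ComplexOrder Laplacian ENNReal Nat
open Pool.Agent.H83.UE

namespace Pool.Agent.H21.UDB

lemma fac_ne {v : ℂ × ℂ} (hv : v ≠ 0) : (C v.2 * X - C v.1 : ℂ[X]) ≠ 0 := by
  intro h
  apply hv
  have h0 := congrArg (fun p => Polynomial.coeff p 0) h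
  have h1 := congrArg (fun p => Polynomial.coeff p 1) h
  simp only [coeff_sub, coeff_C_mul, coeff_X_zero, mul_zero, coeff_C_zero, zero_sub, coeff_zero,
    neg_eq_zero] at h0
  simp only [coeff_sub, coeff_C_mul, coeff_X_one, mul_one, coeff_C_succ, sub_zero,
    coeff_zero] at h1
  exact Prod.ext h0 h1

lemma fac_deg (v : ℂ × ℂ) : (C v.2 * X - C v.1 : ℂ[X]).natDegree ≤ 1 := by
  refine (natDegree_sub_le _ _).trans (max_le ?_ ?_)
  · exact (natDegree_C_mul_le _ _).trans natDegree_X_le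
  · rw [natDegree_C]
    omega

lemma fac_lin {v : ℂ × ℂ} {e : OnePoint ℂ} (h : wd v (vec e) = 0) :
    ∃ c : ℂ, (C v.2 * X - C v.1 : ℂ[X]) = lin e * C c := by
  induction e using OnePoint.rec with
  | infty =>
    have h1 : v.1 * 0 - v.2 * 1 = 0 := h
    have h2 : v.2 = 0 := by linear_combination -h1
    refine ⟨-v.1, ?_⟩
    have h3 : lin ∞ = 1 := rfl
    rw [h2, h3, C_0, zero_mul, zero_sub, one_mul, C_neg]
  | coe a =>
    have h1 : v.1 * 1 - v.2 * a = 0 := h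
    have h2 : v.1 = v.2 * a := by linear_combination h1
    refine ⟨v.2, ?_⟩
    have h3 : lin (a : OnePoint ℂ) = X - C a := rfl
    rw [h2, h3, C_mul]
    ring

lemma prod_deg {k : ℕ} (T : Finset (Fin k)) (v : Fin k → ℂ × ℂ) :
    (∏ l ∈ T, (C (v l).2 * X - C (v l).1) : ℂ[X]).natDegree ≤ T.card := by
  refine (natDegree_prod_le _ _).trans ((Finset.sum_le_sum fun l _ => fac_deg (v l)).trans ?_)
  simp

lemma pol_hcoef {k : ℕ} (v : Fin k → ℂ × ℂ) :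
    pol (hcoef v) = ∏ l, (C (v l).2 * X - C (v l).1) := by
  have hd : (∏ l, (C (v l).2 * X - C (v l).1) : ℂ[X]).natDegree < k + 1 := by
    have := prod_deg Finset.univ v
    rw [Finset.card_univ, Fintype.card_fin] at this
    omega
  unfold pol hcoef
  rw [Fin.sum_univ_eq_sum_range
    (fun i => C ((∏ l, (C (v l).2 * X - C (v l).1) : ℂ[X]).coeff i) * X ^ i) (k + 1)]
  exact (as_sum_range_C_mul_X_pow' _ hd).symm

lemma hcoef_ne {k : ℕ} {v : Fin k → ℂ × ℂ} (hv : ∀ l, v l ≠ 0) : hcoef v ≠ 0 := by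
  intro h
  have h1 := pol_hcoef v
  rw [h] at h1
  have h2 : pol (0 : Fin (k + 1) → ℂ) = 0 := by simp [pol]
  rw [h2] at h1
  exact Finset.prod_ne_zero_iff.2 (fun l _ => fac_ne (hv l)) h1.symm

lemma prod_lin {k : ℕ} (T : Finset (Fin k)) (v : Fin k → ℂ × ℂ) (ε : Fin k → OnePoint ℂ)
    (h : ∀ l ∈ T, wd (v l) (vec (ε l)) = 0) :
    ∃ c : ℂ, (∏ l ∈ T, (C (v l).2 * X - C (v l).1) : ℂ[X]) = (∏ l ∈ T, lin (ε l)) * C c := by
  classical
  induction T using Finset.induction_on with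
  | empty => exact ⟨1, by simp⟩
  | insert a T ha ih =>
    obtain ⟨c, hc⟩ := ih fun l hl => h l (Finset.mem_insert_of_mem hl)
    obtain ⟨c', hc'⟩ := fac_lin (h a (Finset.mem_insert_self _ _))
    refine ⟨c' * c, ?_⟩
    rw [Finset.prod_insert ha, Finset.prod_insert ha, hc, hc', C_mul]
    ring

lemma van_hcoef {k : ℕ} (T : Finset (Fin k)) (v : Fin k → ℂ × ℂ) (ε : Fin k → OnePoint ℂ)
    (h : ∀ l ∈ T, wd (v l) (vec (ε l)) = 0) :
    Van (fun i : Fin T.card => ε (T.equivFin.symm i)) (hcoef v) := by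
  classical
  obtain ⟨c, hc⟩ := prod_lin T v ε h
  refine ⟨C c * ∏ l ∈ Tᶜ, (C (v l).2 * X - C (v l).1), ?_, ?_⟩
  · refine (natDegree_C_mul_le _ _).trans ((prod_deg _ _).trans ?_)
    rw [Finset.card_compl, Fintype.card_fin]
  · have e1 : ∏ i : Fin T.card, lin (ε (T.equivFin.symm i)) = ∏ l ∈ T, lin (ε l) := by
      rw [Equiv.prod_comp T.equivFin.symm (fun x => lin (ε x)),
        Finset.prod_coe_sort T fun l => lin (ε l)]
    rw [pol_hcoef, e1, ← Finset.prod_mul_prod_compl T, hc, mul_assoc]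

lemma one_le_M {k : ℕ} (B : Finset (Fin k)) (D : ℕ) (z : Fin k → ℂ) :
    1 ≤ ∏ l ∈ B, (max 1 ‖z l‖) ^ D := by
  have h1 : ∏ l ∈ B, (1 : ℝ) ≤ ∏ l ∈ B, (max 1 ‖z l‖) ^ D :=
    Finset.prod_le_prod (fun _ _ => zero_le_one) fun l _ => one_le_pow₀ (le_max_left _ _)
  simpa using h1

/-- trivial bound for a polynomial -/
lemma triv {k : ℕ} (h : MvPolynomial (Fin k) ℂ) (B : Finset (Fin k)) (hB : h.vars ⊆ B) (D : ℕ)
    (hD : ∀ l, h.degreeOf l ≤ D) : ∃ K : ℝ, 1 ≤ K ∧ ∀ z : Fin k → ℂ,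
      ‖MvPolynomial.eval z h‖ ≤ K * ∏ l ∈ B, (max 1 ‖z l‖) ^ D := by
  refine ⟨1 + ∑ a ∈ h.support, ‖h.coeff a‖, ?_, fun z => ?_⟩
  · have : 0 ≤ ∑ a ∈ h.support, ‖h.coeff a‖ := Finset.sum_nonneg fun _ _ => norm_nonneg _
    linarith
  have hM := one_le_M B D z
  rw [MvPolynomial.eval_eq']
  have h1 : ‖∑ a ∈ h.support, h.coeff a * ∏ i, z i ^ a i‖ ≤
      ∑ a ∈ h.support, ‖h.coeff a‖ * ∏ l ∈ B, (max 1 ‖z l‖) ^ D := by
    refine (norm_sum_le _ _).trans (Finset.sum_le_sum fun a ha => ?_)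
    rw [norm_mul]
    refine mul_le_mul_of_nonneg_left ?_ (norm_nonneg _)
    rw [norm_prod]
    have h2 : ∏ i, ‖z i ^ a i‖ = ∏ i ∈ B, ‖z i ^ a i‖ := by
      symm
      refine Finset.prod_subset (Finset.subset_univ _) fun i _ hi => ?_
      have h3 : a i = 0 := by
        by_contra hne
        exact hi (hB ((MvPolynomial.mem_vars_iff_mem_support i).2
          ⟨a, ha, Finsupp.mem_support_iff.2 hne⟩))
      rw [h3, pow_zero, norm_one]
    rw [h2]
    refine Finset.prod_le_prod (fun _ _ => norm_nonneg _) fun i _ => ?_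
    rw [norm_pow]
    calc ‖z i‖ ^ a i ≤ (max 1 ‖z i‖) ^ a i :=
          pow_le_pow_left₀ (norm_nonneg _) (le_max_right _ _) _
      _ ≤ (max 1 ‖z i‖) ^ D := pow_le_pow_right₀ (le_max_left _ _)
          ((MvPolynomial.monomial_le_degreeOf i ha).trans (hD i))
  rw [← Finset.sum_mul] at h1
  refine h1.trans (mul_le_mul_of_nonneg_right (by linarith) (by linarith))

/-- the inequality for one choice of the exceptional points -/
lemma one_eps (h1 : T_LIN) (h2 : T_ELI) (h3 : T_LJN) {k m d : ℕ} (hm : m ≤ k) (g : RatMap d)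
    (𝓕 : Set (MvPolynomial (Fin (k + 1)) ℂ)) (hF : ∀ F ∈ 𝓕, ∃ N, F.IsHomogeneous N)
    (hG : Generic g m 𝓕) (A I : Finset (Fin k)) (hI : I.card = m) (hA : ¬ A ⊆ I)
    (ε : Fin k → OnePoint ℂ) (hε : ∀ l, ε l ∈ g.Exc) :
    ∃ (h : MvPolynomial (Fin k) ℂ) (D N : ℕ) (C : ℝ), h ≠ 0 ∧ h.vars ⊆ I \ A ∧
      (∀ l, h.degreeOf l ≤ D) ∧ 0 < N ∧ ∀ z : Fin k → ℂ, coef z ∈ chart 𝓕 → ∀ t : ℝ, 0 ≤ t →
        (∀ l ∈ A, cd (z l, 1) (vec (ε l)) ≤ t) →
          ‖MvPolynomial.eval z h‖ ^ N ≤ C * (∏ l ∈ I \ A, (max 1 ‖z l‖) ^ D) ^ N * t := by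
  classical
  obtain ⟨T, hTA, hTm, hTr, hT1⟩ : ∃ T : Finset (Fin k), T ⊆ A ∧ T.card ≤ m + 1 ∧
      m + 1 - T.card ≤ (I \ A).card ∧ 1 ≤ T.card := by
    by_cases hc : A.card ≤ m + 1
    · have e1 : (A ∩ I).card < A.card := Finset.card_lt_card
        ⟨Finset.inter_subset_left, fun h => hA (h.trans Finset.inter_subset_right)⟩
      have e2 := Finset.card_sdiff_add_card_inter I A
      rw [Finset.inter_comm] at e1
      refine ⟨A, subset_rfl, hc, ?_, ?_⟩ <;> omega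
    · obtain ⟨T, hT, hT'⟩ := Finset.exists_subset_card_eq (s := A) (n := m + 1) (by omega)
      refine ⟨T, hT, ?_, ?_, ?_⟩ <;> omega
  have hTk : T.card ≤ k := by
    have := Finset.card_le_univ T
    rwa [Fintype.card_fin] at this
  obtain ⟨Λ, hΛ, hΛ0⟩ := hG T.card (fun i => ε (T.equivFin.symm i)) hT1 hTk hTm
    (fun i => hε _)
  obtain ⟨L, hL, hLΛ⟩ := h1.1 (k + 1) Λ
  obtain ⟨W, hW⟩ := h1.2 k T.card (fun i => ε (T.equivFin.symm i))
  obtain ⟨L', hL', hLW⟩ := h1.1 (k + 1) W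
  obtain ⟨h, hh0, hhv, hh⟩ := h2 k (k + 1 - Module.finrank ℂ Λ) (𝓕 ∪ Set.range L')
    (by
      rintro F (hF' | ⟨i, rfl⟩)
      · exact hF F hF'
      · exact ⟨1, hL' i⟩) L hL
    (fun a ha ha' => hΛ0 a ((hLΛ a).2 ha') (fun F hF' => ha F (Or.inl hF'))
      ((hW a).1 ((hLW a).2 fun i => ha _ (Or.inr ⟨i, rfl⟩)))) (I \ A)
    (by rw [hΛ]; omega)
  obtain ⟨D, N, C, hN, hD, hE⟩ := h3 k 𝓕 hF T (I \ A) ε h hhv (fun v hv hv1 hv2 hv3 => by
    refine hh (hcoef v) (hcoef_ne hv) ?_ _ fun l hl => ?_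
    · rintro F (hF' | ⟨i, rfl⟩)
      · exact hv1 F hF'
      · exact (hLW _).1 ((hW _).2 (van_hcoef T v ε hv2)) i
    · rw [pol_hcoef, eval_prod]
      refine Finset.prod_eq_zero (Finset.mem_univ l) ?_
      rw [eval_sub, eval_mul, eval_C, eval_X, eval_C, mul_div_cancel₀ _ (hv3 l hl), sub_self])
  exact ⟨h, D, N, C, hh0, hhv, hD, hN, fun z hz t ht hA' => hE z hz t ht
    fun l hl => hA' l (hTA hl)⟩

/-- combination of finitely many inequalities -/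
lemma combine {k : ℕ} (B : Finset (Fin k)) {ι : Type} [Fintype ι] [DecidableEq ι]
    (h : ι → MvPolynomial (Fin k) ℂ) (D N : ι → ℕ) (C : ι → ℝ) (hv : ∀ i, (h i).vars ⊆ B)
    (hD : ∀ i l, (h i).degreeOf l ≤ D i) (V : Set (Fin k → ℂ))
    (Q : ι → (Fin k → ℂ) → ℝ → Prop)
    (hQ : ∀ i z, z ∈ V → ∀ t : ℝ, 0 ≤ t → Q i z t →
      ‖MvPolynomial.eval z (h i)‖ ^ N i ≤ C i * (∏ l ∈ B, (max 1 ‖z l‖) ^ D i) ^ N i * t) :
    ∃ (D' N' : ℕ) (C' : ℝ), 0 < N' ∧ (∀ l, (∏ i, h i).degreeOf l ≤ D') ∧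
      ∀ z ∈ V, ∀ t : ℝ, 0 ≤ t → (∃ i, Q i z t) →
        ‖MvPolynomial.eval z (∏ i, h i)‖ ^ N' ≤ C' * (∏ l ∈ B, (max 1 ‖z l‖) ^ D') ^ N' * t := by
  choose K hK1 hK using fun i => triv (h i) B (hv i) (D i) (hD i)
  obtain ⟨Kb, hKb⟩ : ∃ Kb, Kb = 1 + ∑ i, K i := ⟨_, rfl⟩
  obtain ⟨Cb, hCb⟩ : ∃ Cb, Cb = 1 + ∑ i, |C i| := ⟨_, rfl⟩
  obtain ⟨Db, hDb⟩ : ∃ Db, Db = ∑ i, D i := ⟨_, rfl⟩
  obtain ⟨Nb, hNb⟩ : ∃ Nb, Nb = 1 + ∑ i, N i := ⟨_, rfl⟩
  obtain ⟨n, hn⟩ : ∃ n, n = Fintype.card ι := ⟨_, rfl⟩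
  have hKi : ∀ i, K i ≤ Kb := by
    intro i
    have := Finset.single_le_sum (f := K) (fun j _ => zero_le_one.trans (hK1 j))
      (Finset.mem_univ i)
    linarith
  have hKb1 : 1 ≤ Kb := by
    have : 0 ≤ ∑ i, K i := Finset.sum_nonneg fun j _ => zero_le_one.trans (hK1 j)
    linarith
  have hCi : ∀ i, C i ≤ Cb := by
    intro i
    have := Finset.single_le_sum (f := fun i => |C i|) (fun j _ => abs_nonneg _)
      (Finset.mem_univ i)
    have h2 := le_abs_self (C i)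
    linarith
  have hCb0 : 0 ≤ Cb := by
    have : 0 ≤ ∑ i, |C i| := Finset.sum_nonneg fun j _ => abs_nonneg _
    linarith
  have hDi : ∀ i, D i ≤ Db := fun i => by
    rw [hDb]
    exact Finset.single_le_sum (f := D) (fun _ _ => Nat.zero_le _) (Finset.mem_univ i)
  have hNi : ∀ i, N i ≤ Nb := fun i => by
    have := Finset.single_le_sum (f := N) (fun _ _ => Nat.zero_le _) (Finset.mem_univ i)
    omega
  refine ⟨Db * (n + 1), Nb, Cb * (Kb ^ Nb) ^ (n + 1), by omega, fun l => ?_,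
    fun z hz t ht hi => ?_⟩
  · refine (MvPolynomial.degreeOf_prod_le l _ _).trans
      ((Finset.sum_le_sum fun i _ => hD i l).trans ?_)
    rw [← hDb]
    exact Nat.le_mul_of_pos_right _ (by omega)
  obtain ⟨M, hM⟩ : ∃ M, M = ∏ l ∈ B, max 1 ‖z l‖ := ⟨_, rfl⟩
  have hMD : ∀ e : ℕ, ∏ l ∈ B, (max 1 ‖z l‖) ^ e = M ^ e := by
    intro e
    rw [hM, Finset.prod_pow]
  have hM1 : 1 ≤ M := by
    have := one_le_M B 1 z
    rwa [hMD, pow_one] at this
  simp only [hMD] at hQ hK ⊢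
  have hMD' : ∀ (i : ι), ∏ l ∈ B, (max 1 ‖z l‖) ^ D i = M ^ D i := fun i => hMD _
  obtain ⟨Y, hY⟩ : ∃ Y, Y = Kb * M ^ Db := ⟨_, rfl⟩
  have hMDb : 1 ≤ M ^ Db := one_le_pow₀ hM1
  have hMY : M ^ Db ≤ Y := by
    rw [hY]
    exact le_mul_of_one_le_left (zero_le_one.trans hMDb) hKb1
  have hY1 : 1 ≤ Y := hMDb.trans hMY
  have hY0 : 0 ≤ Y := zero_le_one.trans hY1
  have ha : ∀ i, ‖MvPolynomial.eval z (h i)‖ ≤ Y := by
    intro i
    refine (hK i z).trans ?_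
    rw [hMD', hY]
    exact mul_le_mul (hKi i) (pow_le_pow_right₀ hM1 (hDi i)) (by positivity)
      (zero_le_one.trans hKb1)
  obtain ⟨i, hi⟩ := hi
  have hb : ‖MvPolynomial.eval z (h i)‖ ^ Nb ≤ Cb * Y ^ Nb * t := by
    have h1 := hQ i z hz t ht hi
    rw [hMD'] at h1
    have h2 : C i * (M ^ D i) ^ N i * t ≤ Cb * Y ^ N i * t := by
      refine mul_le_mul_of_nonneg_right ?_ ht
      refine (mul_le_mul_of_nonneg_right (hCi i) (by positivity)).trans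
        (mul_le_mul_of_nonneg_left ?_ hCb0)
      exact pow_le_pow_left₀ (by positivity) ((pow_le_pow_right₀ hM1 (hDi i)).trans hMY) _
    have e1 : Nb = N i + (Nb - N i) := by
      have := hNi i
      omega
    rw [e1, pow_add, pow_add]
    refine (mul_le_mul (h1.trans h2) (pow_le_pow_left₀ (norm_nonneg _) (ha i) (Nb - N i))
      (by positivity) (by positivity)).trans_eq ?_
    ring
  have hc : ‖MvPolynomial.eval z (∏ i, h i)‖ ^ Nb =
      ‖MvPolynomial.eval z (h i)‖ ^ Nb *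
        ∏ j ∈ Finset.univ.erase i, ‖MvPolynomial.eval z (h j)‖ ^ Nb := by
    rw [Finset.mul_prod_erase Finset.univ (fun j => ‖MvPolynomial.eval z (h j)‖ ^ Nb)
      (Finset.mem_univ i), map_prod, norm_prod, Finset.prod_pow]
  have hd : ∏ j ∈ Finset.univ.erase i, ‖MvPolynomial.eval z (h j)‖ ^ Nb ≤ (Y ^ Nb) ^ n := by
    refine (Finset.prod_le_prod (fun _ _ => by positivity) fun j _ =>
      pow_le_pow_left₀ (norm_nonneg _) (ha j) Nb).trans ?_
    rw [Finset.prod_const]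
    refine pow_le_pow_right₀ (one_le_pow₀ hY1) ?_
    rw [hn]
    exact (Finset.card_le_card (Finset.erase_subset _ _)).trans_eq Finset.card_univ
  rw [hc]
  refine (mul_le_mul hb hd (Finset.prod_nonneg fun _ _ => by positivity)
    (by positivity)).trans_eq ?_
  rw [hY]
  ring

lemma cd_nonneg (v w : ℂ × ℂ) : 0 ≤ cd v w := by
  unfold cd
  positivity

/-- the nearest point of `E` -/
lemma near {E : Finset (OnePoint ℂ)} (hE : E.Nonempty) {z : ℂ} {s : ℝ} (hs : 0 ≤ s)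
    (h : om E z ≤ s ^ E.card) : ∃ e ∈ E, cd (z, 1) (vec e) ≤ s := by
  obtain ⟨e, he, hmin⟩ := Finset.exists_min_image E (fun e => cd (z, 1) (vec e)) hE
  refine ⟨e, he, ?_⟩
  have h1 : cd (z, 1) (vec e) ^ E.card ≤ om E z := by
    rw [← Finset.prod_const]
    exact Finset.prod_le_prod (fun _ _ => cd_nonneg _ _) hmin
  exact (pow_le_pow_iff_left₀ (cd_nonneg _ _) hs (Finset.card_pos.2 hE).ne').1 (h1.trans h)

theorem pf_TAM (h1 : T_LIN) (h2 : T_ELI) (h3 : T_LJN) : T_TAM := by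
  classical
  intro k m d hm g E hE 𝓕 hF hG S hS A I hA
  rcases E.eq_empty_or_nonempty with hE0 | hE0
  · refine ⟨1, 0, 1, 1, one_ne_zero, ?_, fun l => ?_, one_pos, ?_⟩
    · rw [MvPolynomial.vars_one]
      exact Finset.empty_subset _
    · rw [MvPolynomial.degreeOf_one]
    · refine Filter.Eventually.of_forall fun z _ t _ hA' => ?_
      obtain ⟨l, hl, -⟩ := Finset.not_subset.1 hA
      have h4 := hA' l hl
      have h5 : om E (z l) = 1 := by
        rw [hE0]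
        rfl
      rw [h5] at h4
      simpa using h4
  · choose h D N C hh0 hhv hD hN hC using fun ε : Fin k → {e // e ∈ E} =>
      one_eps h1 h2 h3 hm g 𝓕 hF hG A I.1 I.2 hA (fun l => (ε l).1) (fun l => hE _ (ε l).2)
    obtain ⟨D', N', C', hN', hD', hC'⟩ := combine (I.1 \ A) h D N C hhv hD
      {z | coef z ∈ chart 𝓕} (fun ε z t => ∀ l ∈ A, cd (z l, 1) (vec (ε l).1) ≤ t)
      (fun ε z hz t ht hq => hC ε z hz t ht hq)
    have hEc : E.card ≠ 0 := (Finset.card_pos.2 hE0).ne'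
    refine ⟨∏ ε, h ε, D', N' * E.card, C' ^ E.card, Finset.prod_ne_zero_iff.2 fun ε _ => hh0 ε,
      ?_, hD', Nat.mul_pos hN' (Finset.card_pos.2 hE0), ?_⟩
    · refine (MvPolynomial.vars_prod _).trans (Finset.biUnion_subset.2 fun ε _ => hhv ε)
    · filter_upwards [hS I I] with z hz hne t ht hA'
      have hmem : coef z ∈ chart 𝓕 := by
        by_contra hcon
        exact hne (hz hcon)
      obtain ⟨s, hs0, hs⟩ : ∃ s : ℝ, 0 ≤ s ∧ s ^ E.card = t :=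
        ⟨t ^ ((E.card : ℝ)⁻¹), Real.rpow_nonneg ht _, Real.rpow_inv_natCast_pow ht hEc⟩
      obtain ⟨e0, he0⟩ := hE0
      have hch : ∀ l, ∃ e : {e // e ∈ E}, l ∈ A → cd (z l, 1) (vec e.1) ≤ s := by
        intro l
        by_cases hl : l ∈ A
        · obtain ⟨e, he, he'⟩ := near ⟨e0, he0⟩ hs0 (by rw [hs]; exact hA' l hl)
          exact ⟨⟨e, he⟩, fun _ => he'⟩
        · exact ⟨⟨e0, he0⟩, fun h' => absurd h' hl⟩
      choose ε hε using hch
      have h4 := hC' z hmem s hs0 ⟨ε, fun l hl => hε l hl⟩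
      rw [pow_mul]
      refine (pow_le_pow_left₀ (by positivity) h4 E.card).trans_eq ?_
      rw [mul_pow, mul_pow, hs, pow_mul (∏ l ∈ I.1 \ A, (max 1 ‖z l‖) ^ D')]

end Pool.Agent.H21.UDB
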